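import Pool.Agent.H38.AE.TargetsN
import Pool.Agent.H74.AE.J3

/-! Module N3: tuples with two entries that are nearly powers. -/

set_option autoImplicit false

namespace Pool.Agent.H33.AE

open Pool.Agent.H38.AE Pool.Agent.H74.AE.J3

/-- the other entries, for the pair `i`, `j`. -/
noncomputable def Yf (n H : ℕ) (i j : Fin n) : Finset (Fin n → ℤ) :=
  Fintype.piFinset (fun l => if l = i ∨ l = j then {1} else Az H)

theorem RR_one' : RR 1 = 1 := by simp [RR, rad]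

theorem RR_ge (x : ℤ) : 1 ≤ RR x := by
  unfold RR
  exact_mod_cast rad_pos _

theorem sum_Yf (n H : ℕ) (i j : Fin n) (T : ℝ) (hT : 1 ≤ T) (hS : ∑ a ∈ Az H, 1 / RR a ≤ T) :
    ∑ y ∈ Yf n H i j, ∏ l, 1 / RR (y l) ≤ T ^ n := by
  unfold Yf
  rw [← Finset.prod_univ_sum (fun l : Fin n => if l = i ∨ l = j then {1} else Az H)
    (fun _ a => 1 / RR a)]
  calc _ ≤ ∏ _l : Fin n, T := by
        apply Finset.prod_le_prod
        · intro l _
          exact Finset.sum_nonneg fun a _ => (one_div_pos.2 (RR_pos a)).le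
        · intro l _
          split_ifs
          · rw [Finset.sum_singleton, RR_one', div_one]; exact hT
          · exact hS
    _ = T ^ n := by simp

/-- the tuple with entries `u`, `v` at `i`, `j`. -/
def put {n : ℕ} (i j : Fin n) (y : Fin n → ℤ) (u v : ℤ) : Fin n → ℤ :=
  fun l => if l = i then u else if l = j then v else y l

theorem put_put {n : ℕ} (i j : Fin n) (x : Fin n → ℤ) :
    put i j (put i j x 1 1) (x i) (x j) = x := by
  funext l
  unfold put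
  by_cases h1 : l = i
  · rw [if_pos h1, h1]
  · rw [if_neg h1]
    by_cases h2 : l = j
    · rw [if_pos h2, h2]
    · rw [if_neg h2, if_neg h1, if_neg h2]

theorem sum_put {n : ℕ} (i j : Fin n) (hij : i ≠ j) (x : Fin n → ℤ) :
    ∑ l, put i j x 1 1 l = ∑ l, x l - x i - x j + 2 := by
  have h1 : ∀ l, put i j x 1 1 l =
      x l + (if l = i then (1 - x i) else 0) + (if l = j then (1 - x j) else 0) := by
    intro l
    unfold put
    by_cases h1 : l = i
    · have h2 : l ≠ j := fun h => hij (h1 ▸ h)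
      rw [if_pos h1, if_pos h1, if_neg h2, h1]
      ring
    · rw [if_neg h1, if_neg h1]
      by_cases h2 : l = j
      · rw [if_pos h2, if_pos h2, h2]
        ring
      · rw [if_neg h2, if_neg h2]
        ring
  rw [Finset.sum_congr rfl fun l _ => h1 l, Finset.sum_add_distrib, Finset.sum_add_distrib,
    Finset.sum_ite_eq' Finset.univ i, Finset.sum_ite_eq' Finset.univ j]
  simp only [Finset.mem_univ, if_true]
  ring

theorem prod_put {n : ℕ} (i j : Fin n) (x : Fin n → ℤ) :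
    ∏ l, RR (put i j x 1 1 l) =
      ∏ l ∈ Finset.univ.filter (fun l => l ≠ i ∧ l ≠ j), RR (x l) := by
  rw [Finset.prod_filter]
  refine Finset.prod_congr rfl fun l _ => ?_
  unfold put
  by_cases h1 : l = i
  · rw [if_pos h1, if_neg (by tauto), RR_one']
  · by_cases h2 : l = j
    · rw [if_neg h1, if_pos h2, if_neg (by tauto), RR_one']
    · rw [if_neg h1, if_neg h2, if_pos ⟨h1, h2⟩]

theorem put_mem {n H : ℕ} (i j : Fin n) (x : Fin n → ℤ) (h0 : ∀ l, x l ≠ 0)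
    (hH : ∀ l, |x l| ≤ (H : ℤ)) : put i j x 1 1 ∈ Yf n H i j := by
  unfold Yf
  rw [Fintype.mem_piFinset]
  intro l
  unfold put
  by_cases h1 : l = i
  · rw [if_pos h1, if_pos (Or.inl h1)]
    exact Finset.mem_singleton_self _
  · by_cases h2 : l = j
    · rw [if_neg h1, if_pos h2, if_pos (Or.inr h2)]
      exact Finset.mem_singleton_self _
    · rw [if_neg h1, if_neg h2, if_neg (by tauto)]
      exact mem_Az.2 ⟨hH l, h0 l⟩

theorem abs_Yf {n H : ℕ} (hH : 1 ≤ H) (i j : Fin n) (y : Fin n → ℤ) (hy : y ∈ Yf n H i j) :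
    |2 - ∑ l, y l| ≤ (((n + 2) * H : ℕ) : ℤ) := by
  unfold Yf at hy
  rw [Fintype.mem_piFinset] at hy
  have h1 : ∀ l, |y l| ≤ (H : ℤ) := by
    intro l
    have := hy l
    split_ifs at this
    · rw [Finset.mem_singleton] at this
      rw [this, abs_one]
      exact_mod_cast hH
    · exact (mem_Az.1 this).1
  have h2 : |∑ l, y l| ≤ (n : ℤ) * H := by
    refine (Finset.abs_sum_le_sum_abs _ _).trans ((Finset.sum_le_sum fun l _ => h1 l).trans ?_)
    simp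
  have h3 : (1 : ℤ) ≤ H := by exact_mod_cast hH
  have h4 : |2 - ∑ l, y l| ≤ |2| + |∑ l, y l| := abs_sub _ _
  have h5 : |(2 : ℤ)| = 2 := by norm_num
  push_cast
  nlinarith

/-- N3 -/
theorem pf_N3 (hA : T_A) : T_N3 := by
  classical
  intro n D K κ ε hκ hε hHD
  obtain ⟨δ, hδ⟩ : ∃ δ : ℝ, δ = ε / (n + 5) := ⟨_, rfl⟩
  have hδ0 : 0 < δ := by rw [hδ]; positivity
  obtain ⟨CA, hCA, hA⟩ := hA δ hδ0
  have hex : ∀ e f : ℕ, D < e → D < f → ∃ C : ℝ, 0 < C ∧
      ∀ (N : ℕ) (a b E : ℤ), 1 ≤ N → a ≠ 0 → b ≠ 0 → E ≠ 0 → |a| ≤ N → |b| ≤ N → |E| ≤ N →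
      ∀ U V : ℕ, 1 ≤ U → 1 ≤ V → U ≤ N → V ≤ N →
      (((Finset.Icc 1 U ×ˢ Finset.Icc 1 V).filter
        (fun t => a * (t.1 : ℤ) ^ e + b * (t.2 : ℤ) ^ f = E)).card : ℝ) ≤
        C * (N : ℝ) ^ δ * ((U : ℝ) * V) ^ κ := fun e f he hf => hHD e f δ he hf hδ0
  choose! C0 hC0 hC using hex
  obtain ⟨CE, hCE⟩ : ∃ CE : ℝ, CE = ∑ x ∈ (Finset.Ioc D K) ×ˢ (Finset.Ioc D K), C0 x.1 x.2 :=
    ⟨_, rfl⟩
  have hCE0 : 0 ≤ CE := by
    rw [hCE]
    refine Finset.sum_nonneg fun x hx => ?_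
    rw [Finset.mem_product, Finset.mem_Ioc, Finset.mem_Ioc] at hx
    exact (hC0 _ _ hx.1.1 hx.2.1).le
  obtain ⟨CL, hCL⟩ : ∃ CL : ℝ, CL = 1 + 1 / (δ * Real.log 2) := ⟨_, rfl⟩
  have hCL0 : 0 < CL := by
    have : 0 < Real.log 2 := Real.log_pos (by norm_num)
    rw [hCL]; positivity
  refine ⟨(n * n + 1) * ((2 * CA + 1) ^ (n + 2) *
    (CE * (CL * CL) * ((n + 2) ^ δ * 4 ^ κ) + 2)), by positivity, fun H Z hH hZ => ?_⟩
  have hH0 : (0 : ℝ) < H := by exact_mod_cast hH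
  have hHδ1 : (1 : ℝ) ≤ (H : ℝ) ^ δ := Real.one_le_rpow (by exact_mod_cast hH) hδ0.le
  obtain ⟨L, hL⟩ : ∃ L : ℕ, L = Nat.log 2 H + 1 := ⟨_, rfl⟩
  obtain ⟨S, hS⟩ : ∃ S : ℝ, S = ∑ a ∈ Az H, 1 / RR a := ⟨_, rfl⟩
  obtain ⟨T, hT⟩ : ∃ T : ℝ, T = (2 * CA + 1) * (H : ℝ) ^ δ := ⟨_, rfl⟩
  have hS1 : S ≤ T := by
    rw [hS, hT]
    refine (sum_Az H).trans ?_
    have := hA H hH
    nlinarith
  have hS0 : 0 ≤ S := by
    rw [hS]
    exact Finset.sum_nonneg fun a _ => (one_div_pos.2 (RR_pos a)).le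
  have hT1 : 1 ≤ T := by
    rw [hT]
    nlinarith
  have hL1 : (L : ℝ) ≤ CL * (H : ℝ) ^ δ := by
    rw [hL, hCL]
    exact log_bound hδ0 hH
  -- one pair
  obtain ⟨B, hB⟩ : ∃ B : ℝ, B = (CE * (L * L)) * ((T * T) * T ^ n) *
      (((n : ℝ) + 2) ^ δ * 4 ^ κ * (H : ℝ) ^ δ * Z) + 2 * T ^ n * Z := ⟨_, rfl⟩
  obtain ⟨NP, hNP⟩ : ∃ NP : Fin n → Fin n → Set (Fin n → ℤ), ∀ i j x, x ∈ NP i j ↔
      (x ∈ Adm n H ∧ ∃ (a b : ℤ) (p r e f : ℕ), 1 ≤ p ∧ 1 ≤ r ∧
        D < e ∧ e ≤ K ∧ D < f ∧ f ≤ K ∧ x i = a * (p : ℤ) ^ e ∧ x j = b * (r : ℤ) ^ f ∧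
        RR a * RR b * (∏ l ∈ Finset.univ.filter (fun l => l ≠ i ∧ l ≠ j), RR (x l)) *
          ((p : ℝ) * r) ^ κ ≤ Z) :=
    ⟨fun i j => {x | x ∈ Adm n H ∧ ∃ (a b : ℤ) (p r e f : ℕ), 1 ≤ p ∧ 1 ≤ r ∧
        D < e ∧ e ≤ K ∧ D < f ∧ f ≤ K ∧ x i = a * (p : ℤ) ^ e ∧ x j = b * (r : ℤ) ^ f ∧
        RR a * RR b * (∏ l ∈ Finset.univ.filter (fun l => l ≠ i ∧ l ≠ j), RR (x l)) *
          ((p : ℝ) * r) ^ κ ≤ Z}, fun i j x => Iff.rfl⟩
  have hpair : ∀ i j : Fin n, i ≠ j → (NP i j).Finite ∧ ((NP i j).ncard : ℝ) ≤ B := by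
    intro i j hij
    -- the families
    let I1 : Finset ((ℕ × ℕ) × (ℕ × ℕ)) :=
      ((Finset.Ioc D K) ×ˢ (Finset.Ioc D K)) ×ˢ ((Finset.range L) ×ˢ (Finset.range L))
    let I2 : Finset ((ℤ × ℤ) × (Fin n → ℤ)) := ((Az H) ×ˢ (Az H)) ×ˢ (Yf n H i j)
    let F : ((ℕ × ℕ) × (ℕ × ℕ)) × ((ℤ × ℤ) × (Fin n → ℤ)) → Finset (Fin n → ℤ) := fun w =>
      if 2 - ∑ l, w.2.2 l ≠ 0 ∧ RR w.2.1.1 * RR w.2.1.2 * (∏ l, RR (w.2.2 l)) *
          (((2 : ℝ) ^ w.1.2.1) * (2 : ℝ) ^ w.1.2.2) ^ κ ≤ Z then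
        ((Finset.Icc 1 (2 ^ (w.1.2.1 + 1)) ×ˢ Finset.Icc 1 (2 ^ (w.1.2.2 + 1))).filter
          (fun t : ℕ × ℕ => w.2.1.1 * (t.1 : ℤ) ^ w.1.1.1 + w.2.1.2 * (t.2 : ℤ) ^ w.1.1.2 =
            2 - ∑ l, w.2.2 l)).image
          (fun t => put i j w.2.2 (w.2.1.1 * (t.1 : ℤ) ^ w.1.1.1) (w.2.1.2 * (t.2 : ℤ) ^ w.1.1.2))
      else ∅
    let F0 : (Fin n → ℤ) → Finset (Fin n → ℤ) := fun y =>
      if ∏ l, RR (y l) ≤ Z then {put i j y 1 (-1), put i j y (-1) 1} else ∅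
    have hcover : NP i j ⊆ ((I1 ×ˢ I2).biUnion F ∪ (Yf n H i j).biUnion F0 :
        Finset (Fin n → ℤ)) := by
      intro x hx
      rw [hNP] at hx
      obtain ⟨⟨hx0, hxc, hxs, hxH⟩, a, b, p, r, e, f, hp, hr, he, heK, hf, hfK, hxi, hxj, hZZ⟩ := hx
      obtain ⟨y, hy⟩ : ∃ y, y = put i j x 1 1 := ⟨_, rfl⟩
      have hyY : y ∈ Yf n H i j := hy ▸ put_mem i j x hx0 hxH
      have hysum : ∑ l, y l = 2 - x i - x j := by
        rw [hy, sum_put i j hij, hxs]; ring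
      have hyprod : ∏ l, RR (y l) =
          ∏ l ∈ Finset.univ.filter (fun l => l ≠ i ∧ l ≠ j), RR (x l) := by
        rw [hy, prod_put]
      rw [← hyprod] at hZZ
      have hyx : put i j y (x i) (x j) = x := by rw [hy, put_put]
      have hyp0 : 0 ≤ ∏ l, RR (y l) := Finset.prod_nonneg fun l _ => (RR_pos _).le
      have hp1R : (1 : ℝ) ≤ p := by exact_mod_cast hp
      have hr1R : (1 : ℝ) ≤ r := by exact_mod_cast hr
      rw [Finset.mem_coe, Finset.mem_union]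
      by_cases hE : x i + x j = 0
      · right
        have hyZ : ∏ l, RR (y l) ≤ Z := by
          refine le_trans ?_ hZZ
          have h1 : 1 ≤ ((p : ℝ) * r) ^ κ := Real.one_le_rpow (by nlinarith) hκ
          have h2 := RR_ge a
          have h3 := RR_ge b
          have h4 : 1 ≤ RR a * RR b := by nlinarith
          calc ∏ l, RR (y l) = 1 * (∏ l, RR (y l)) * 1 := by ring
            _ ≤ _ := mul_le_mul (mul_le_mul_of_nonneg_right h4 hyp0) h1 zero_le_one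
              (mul_nonneg (by linarith) hyp0)
        rw [Finset.mem_biUnion]
        refine ⟨y, hyY, ?_⟩
        simp only [F0]
        rw [if_pos hyZ, Finset.mem_insert, Finset.mem_singleton]
        have hu : IsUnit (x i) := by
          have h1 := hxc i j hij
          have h2 : x j = -(x i) := by linarith
          rw [h2, IsCoprime.neg_right_iff] at h1
          exact isCoprime_self.1 h1
        rcases Int.isUnit_iff.1 hu with h | h
        · left
          have h2 : x j = -1 := by linarith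
          rw [← hyx, h, h2]
        · right
          have h2 : x j = 1 := by linarith
          rw [← hyx, h, h2]
      · left
        have hpow : ∀ (u : ℤ) (v g : ℕ), 1 ≤ v → 1 ≤ g → u * (v : ℤ) ^ g ≠ 0 →
            |u * (v : ℤ) ^ g| ≤ H → u ∈ Az H ∧ v ≤ H := by
          intro u v g hv hg hne hle
          have hu : u ≠ 0 := left_ne_zero_of_mul hne
          rw [abs_mul, abs_of_nonneg (by positivity : (0 : ℤ) ≤ (v : ℤ) ^ g)] at hle
          have h1 : (1 : ℤ) ≤ |u| := Int.one_le_abs hu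
          have h2 : (v : ℤ) ≤ (v : ℤ) ^ g := le_self_pow₀ (by exact_mod_cast hv) (by omega)
          have hv1 : (1 : ℤ) ≤ v := by exact_mod_cast hv
          refine ⟨mem_Az.2 ⟨?_, hu⟩, ?_⟩
          · nlinarith
          · have : (v : ℤ) ≤ H := by nlinarith
            exact_mod_cast this
        obtain ⟨haA, hpH⟩ := hpow a p e hp (by omega) (hxi ▸ hx0 i) (hxi ▸ hxH i)
        obtain ⟨hbA, hrH⟩ := hpow b r f hr (by omega) (hxj ▸ hx0 j) (hxj ▸ hxH j)
        have hlogp : Nat.log 2 p < L := by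
          rw [hL]; exact Nat.lt_succ_of_le (Nat.log_mono_right hpH)
        have hlogr : Nat.log 2 r < L := by
          rw [hL]; exact Nat.lt_succ_of_le (Nat.log_mono_right hrH)
        have hp1 : 2 ^ Nat.log 2 p ≤ p := Nat.pow_log_le_self 2 (by omega)
        have hp2 : p < 2 ^ (Nat.log 2 p + 1) := Nat.lt_pow_succ_log_self (by norm_num) p
        have hr1 : 2 ^ Nat.log 2 r ≤ r := Nat.pow_log_le_self 2 (by omega)
        have hr2 : r < 2 ^ (Nat.log 2 r + 1) := Nat.lt_pow_succ_log_self (by norm_num) r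
        rw [Finset.mem_biUnion]
        refine ⟨(((e, f), (Nat.log 2 p, Nat.log 2 r)), ((a, b), y)), ?_, ?_⟩
        · simp only [I1, I2, Finset.mem_product, Finset.mem_Ioc, Finset.mem_range]
          exact ⟨⟨⟨⟨he, heK⟩, ⟨hf, hfK⟩⟩, ⟨hlogp, hlogr⟩⟩, ⟨haA, hbA⟩, hyY⟩
        · have hcond : RR a * RR b * (∏ l, RR (y l)) *
              (((2 : ℝ) ^ Nat.log 2 p) * (2 : ℝ) ^ Nat.log 2 r) ^ κ ≤ Z := by
            refine le_trans ?_ hZZ
            have h0 : 0 ≤ RR a * RR b * (∏ l, RR (y l)) :=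
              mul_nonneg (mul_pos (RR_pos a) (RR_pos b)).le hyp0
            refine mul_le_mul_of_nonneg_left (Real.rpow_le_rpow (by positivity) ?_ hκ) h0
            have h1 : ((2 : ℝ) ^ Nat.log 2 p) ≤ p := by exact_mod_cast hp1
            have h2 : ((2 : ℝ) ^ Nat.log 2 r) ≤ r := by exact_mod_cast hr1
            gcongr
          have hE' : 2 - ∑ l, y l = x i + x j := by rw [hysum]; ring
          simp only [F]
          rw [if_pos ⟨by rw [hE']; exact hE, hcond⟩, Finset.mem_image]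
          refine ⟨(p, r), ?_, ?_⟩
          · rw [Finset.mem_filter, Finset.mem_product, Finset.mem_Icc, Finset.mem_Icc]
            refine ⟨⟨⟨hp, hp2.le⟩, ⟨hr, hr2.le⟩⟩, ?_⟩
            simp only
            rw [hE', ← hxi, ← hxj]
          · simp only
            rw [← hxi, ← hxj]
            exact hyx
    have hbound : ∀ w ∈ I1 ×ˢ I2, ((F w).card : ℝ) ≤
        (C0 w.1.1.1 w.1.1.2 * 1) * ((1 / RR w.2.1.1 * (1 / RR w.2.1.2)) * ∏ l, 1 / RR (w.2.2 l)) *
          (((n : ℝ) + 2) ^ δ * 4 ^ κ * (H : ℝ) ^ δ * Z) := by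
      rintro ⟨⟨⟨e, f⟩, ⟨u, v⟩⟩, ⟨⟨a, b⟩, y⟩⟩ hw
      simp only [I1, I2, Finset.mem_product, Finset.mem_Ioc, Finset.mem_range] at hw
      obtain ⟨⟨⟨⟨he, -⟩, ⟨hf, -⟩⟩, ⟨hu, hv⟩⟩, ⟨ha, hb⟩, hy⟩ := hw
      rw [mem_Az] at ha hb
      have hCef := hC0 e f he hf
      have hRa := RR_pos a
      have hRb := RR_pos b
      have hyp0 : 0 < ∏ l, RR (y l) := Finset.prod_pos fun l _ => RR_pos _
      have hyi : ∏ l, 1 / RR (y l) = 1 / ∏ l, RR (y l) := by
        rw [Finset.prod_div_distrib]; simp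
      simp only [F]
      rw [hyi]
      split_ifs with hcond
      · refine le_trans (Nat.cast_le.2 Finset.card_image_le) ?_
        obtain ⟨hEne, hcond⟩ := hcond
        have hpow2 : ∀ i : ℕ, i < L → 2 ^ (i + 1) ≤ (n + 2) * H := by
          intro i hi
          rw [hL] at hi
          have h1 : 2 ^ i ≤ 2 ^ Nat.log 2 H := Nat.pow_le_pow_right (by norm_num) (by omega)
          have h2 : 2 ^ Nat.log 2 H ≤ H := Nat.pow_log_le_self 2 (by omega)
          rw [pow_succ]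
          nlinarith
        have hHZ : (0 : ℤ) ≤ H := by positivity
        have hnHZ : (0 : ℤ) ≤ n * H := by positivity
        have h1 := hC e f he hf ((n + 2) * H) a b (2 - ∑ l, y l) (by nlinarith) ha.2 hb.2 hEne
          (by push_cast; nlinarith [ha.1]) (by push_cast; nlinarith [hb.1])
          (abs_Yf hH i j y hy) (2 ^ (u + 1)) (2 ^ (v + 1))
          (Nat.one_le_two_pow) (Nat.one_le_two_pow) (hpow2 u hu) (hpow2 v hv)
        refine h1.trans ?_
        have h2 : (((n + 2) * H : ℕ) : ℝ) ^ δ = ((n : ℝ) + 2) ^ δ * (H : ℝ) ^ δ := by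
          push_cast
          rw [Real.mul_rpow (by positivity) hH0.le]
        have h3 : (((2 ^ (u + 1) : ℕ) : ℝ) * ((2 ^ (v + 1) : ℕ) : ℝ)) ^ κ =
            4 ^ κ * (((2 : ℝ) ^ u) * (2 : ℝ) ^ v) ^ κ := by
          rw [← Real.mul_rpow (by norm_num) (by positivity)]
          congr 1
          push_cast
          ring
        rw [h2, h3]
        have h4 : (((2 : ℝ) ^ u) * (2 : ℝ) ^ v) ^ κ ≤
            (1 / RR a * (1 / RR b)) * (1 / ∏ l, RR (y l)) * Z := by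
          have h5 : (1 / RR a * (1 / RR b)) * (1 / ∏ l, RR (y l)) * Z =
              Z / (RR a * RR b * ∏ l, RR (y l)) := by
            field_simp
          rw [h5, le_div_iff₀ (mul_pos (mul_pos hRa hRb) hyp0)]
          linarith
        calc C0 e f * (((n : ℝ) + 2) ^ δ * (H : ℝ) ^ δ) * (4 ^ κ * (((2 : ℝ) ^ u) * (2 : ℝ) ^ v) ^ κ)
            ≤ C0 e f * (((n : ℝ) + 2) ^ δ * (H : ℝ) ^ δ) *
                (4 ^ κ * ((1 / RR a * (1 / RR b)) * (1 / ∏ l, RR (y l)) * Z)) := by gcongr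
          _ = _ := by ring
      · simp only [Finset.card_empty, Nat.cast_zero]
        exact mul_nonneg (mul_nonneg (by linarith) (mul_nonneg (mul_nonneg (one_div_pos.2 hRa).le
          (one_div_pos.2 hRb).le) (one_div_pos.2 hyp0).le)) (mul_nonneg (by positivity) hZ)
    have hbound0 : ∀ y ∈ Yf n H i j, ((F0 y).card : ℝ) ≤ (2 * Z) * ∏ l, 1 / RR (y l) := by
      intro y _
      have hyp0 : 0 < ∏ l, RR (y l) := Finset.prod_pos fun l _ => RR_pos _
      have hyi : ∏ l, 1 / RR (y l) = 1 / ∏ l, RR (y l) := by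
        rw [Finset.prod_div_distrib]; simp
      rw [hyi]
      simp only [F0]
      split_ifs with hcond
      · have h1 : ((({put i j y 1 (-1), put i j y (-1) 1} : Finset (Fin n → ℤ)).card : ℕ) : ℝ) ≤ 2 := by
          exact_mod_cast Finset.card_le_two
        refine h1.trans ?_
        rw [mul_one_div, le_div_iff₀ hyp0]
        linarith
      · simp only [Finset.card_empty, Nat.cast_zero]
        exact mul_nonneg (mul_nonneg zero_le_two hZ) (one_div_pos.2 hyp0).le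
    have hsumY := sum_Yf n H i j T hT1 (hS ▸ hS1)
    have hsumY0 : 0 ≤ ∑ y ∈ Yf n H i j, ∏ l, 1 / RR (y l) :=
      Finset.sum_nonneg fun y _ => Finset.prod_nonneg fun l _ => (one_div_pos.2 (RR_pos _)).le
    have hfin : (((I1 ×ˢ I2).biUnion F ∪ (Yf n H i j).biUnion F0 : Finset (Fin n → ℤ)) :
        Set (Fin n → ℤ)).Finite := Finset.finite_toSet _
    refine ⟨hfin.subset hcover, ?_⟩
    have hsum1 : (((I1 ×ˢ I2).biUnion F).card : ℝ) ≤ (CE * (L * L)) * ((T * T) * T ^ n) *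
        (((n : ℝ) + 2) ^ δ * 4 ^ κ * (H : ℝ) ^ δ * Z) := by
      calc (((I1 ×ˢ I2).biUnion F).card : ℝ)
          ≤ ∑ w ∈ I1 ×ˢ I2, ((F w).card : ℝ) := by exact_mod_cast Finset.card_biUnion_le
        _ ≤ ∑ w ∈ I1 ×ˢ I2, (C0 w.1.1.1 w.1.1.2 * 1) *
              ((1 / RR w.2.1.1 * (1 / RR w.2.1.2)) * ∏ l, 1 / RR (w.2.2 l)) *
              (((n : ℝ) + 2) ^ δ * 4 ^ κ * (H : ℝ) ^ δ * Z) := Finset.sum_le_sum hbound
        _ = (CE * (L * L)) * ((S * S) * ∑ y ∈ Yf n H i j, ∏ l, 1 / RR (y l)) *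
              (((n : ℝ) + 2) ^ δ * 4 ^ κ * (H : ℝ) ^ δ * Z) := by
            rw [← Finset.sum_mul]
            congr 1
            have e1 := sum_prod_mul I1 I2 (fun x => C0 x.1.1 x.1.2 * 1)
              (fun z => (1 / RR z.1.1 * (1 / RR z.1.2)) * ∏ l, 1 / RR (z.2 l))
            rw [e1]
            have e2 := sum_prod_mul ((Finset.Ioc D K) ×ˢ (Finset.Ioc D K))
              ((Finset.range L) ×ˢ (Finset.range L)) (fun x => C0 x.1 x.2) (fun _ => (1 : ℝ))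
            have e3 := sum_prod_mul ((Az H) ×ˢ (Az H)) (Yf n H i j)
              (fun z => 1 / RR z.1 * (1 / RR z.2)) (fun y => ∏ l, 1 / RR (y l))
            have e4 := sum_prod_mul (Az H) (Az H) (fun a => 1 / RR a) (fun a => 1 / RR a)
            simp only [I1, I2]
            rw [e2, e3, e4, ← hS, ← hCE]
            simp
        _ ≤ _ := by gcongr
    have hsum0 : (((Yf n H i j).biUnion F0).card : ℝ) ≤ 2 * T ^ n * Z := by
      calc (((Yf n H i j).biUnion F0).card : ℝ)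
          ≤ ∑ y ∈ Yf n H i j, ((F0 y).card : ℝ) := by exact_mod_cast Finset.card_biUnion_le
        _ ≤ ∑ y ∈ Yf n H i j, (2 * Z) * ∏ l, 1 / RR (y l) := Finset.sum_le_sum hbound0
        _ = (2 * Z) * ∑ y ∈ Yf n H i j, ∏ l, 1 / RR (y l) := by rw [Finset.mul_sum]
        _ ≤ (2 * Z) * T ^ n := by gcongr
        _ = 2 * T ^ n * Z := by ring
    have hle : (NP i j).ncard ≤
        ((I1 ×ˢ I2).biUnion F ∪ (Yf n H i j).biUnion F0 : Finset (Fin n → ℤ)).card := by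
      rw [← Set.ncard_coe_finset]
      exact Set.ncard_le_ncard hcover hfin
    have hle2 : (NP i j).ncard ≤ ((I1 ×ˢ I2).biUnion F).card + ((Yf n H i j).biUnion F0).card :=
      hle.trans (Finset.card_union_le _ _)
    have hle3 : ((NP i j).ncard : ℝ) ≤
        (((I1 ×ˢ I2).biUnion F).card : ℝ) + (((Yf n H i j).biUnion F0).card : ℝ) := by
      exact_mod_cast hle2
    rw [hB]
    linarith
  -- the union
  have hsub : NJ n H Z κ D K ⊆ ⋃ q ∈ (Finset.univ : Finset (Fin n × Fin n)).filter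
      (fun q => q.1 ≠ q.2), NP q.1 q.2 := by
    rintro x ⟨hx, i, j, a, b, p, r, e, f, hij, hp, hr, he, heK, hf, hfK, hxi, hxj, hZZ⟩
    simp only [Set.mem_iUnion]
    refine ⟨(i, j), Finset.mem_filter.2 ⟨Finset.mem_univ _, hij⟩, ?_⟩
    rw [hNP]
    exact ⟨hx, a, b, p, r, e, f, hp, hr, he, heK, hf, hfK, hxi, hxj, hZZ⟩
  have hfinU : (⋃ q ∈ (Finset.univ : Finset (Fin n × Fin n)).filter
      (fun q => q.1 ≠ q.2), NP q.1 q.2).Finite := by
    apply Set.Finite.biUnion (Finset.finite_toSet _)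
    intro q hq
    have hq' := (Finset.mem_filter.1 (Finset.mem_coe.1 hq)).2
    exact (hpair _ _ hq').1
  have hB0 : 0 ≤ B := by rw [hB]; positivity
  have hcard : ((NJ n H Z κ D K).ncard : ℝ) ≤ n * n * B := by
    have h1 : (NJ n H Z κ D K).ncard ≤ ∑ q ∈ (Finset.univ : Finset (Fin n × Fin n)).filter
        (fun q => q.1 ≠ q.2), (NP q.1 q.2).ncard :=
      (Set.ncard_le_ncard hsub hfinU).trans (Finset.set_ncard_biUnion_le _ _)
    have h2 : ((NJ n H Z κ D K).ncard : ℝ) ≤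
        ∑ q ∈ (Finset.univ : Finset (Fin n × Fin n)).filter
          (fun q => q.1 ≠ q.2), ((NP q.1 q.2).ncard : ℝ) := by exact_mod_cast h1
    have h3 : ∑ q ∈ (Finset.univ : Finset (Fin n × Fin n)).filter
          (fun q => q.1 ≠ q.2), ((NP q.1 q.2).ncard : ℝ) ≤
        ∑ _q ∈ (Finset.univ : Finset (Fin n × Fin n)).filter
          (fun q => q.1 ≠ q.2), B :=
      Finset.sum_le_sum fun q hq => (hpair _ _ (Finset.mem_filter.1 hq).2).2
    rw [Finset.sum_const, nsmul_eq_mul] at h3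
    have h4 : ((((Finset.univ : Finset (Fin n × Fin n)).filter
        (fun q => q.1 ≠ q.2)).card : ℕ) : ℝ) ≤ n * n := by
      have h5 : ((Finset.univ : Finset (Fin n × Fin n)).filter
        (fun q => q.1 ≠ q.2)).card ≤ n * n := by
        refine (Finset.card_filter_le _ _).trans ?_
        simp
      exact_mod_cast h5
    calc ((NJ n H Z κ D K).ncard : ℝ) ≤ _ := h2
      _ ≤ _ := h3
      _ ≤ n * n * B := mul_le_mul_of_nonneg_right h4 hB0
  obtain ⟨h, hh⟩ : ∃ h : ℝ, h = (H : ℝ) ^ δ := ⟨_, rfl⟩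
  rw [← hh] at hT hL1 hHδ1 hB
  have hCA1 : 1 ≤ 2 * CA + 1 := by linarith
  have hBle : B ≤ (2 * CA + 1) ^ (n + 2) *
      (CE * (CL * CL) * ((n + 2) ^ δ * 4 ^ κ) + 2) * h ^ (n + 5) * Z := by
    rw [hB]
    have h1 : (CE * (L * L)) * ((T * T) * T ^ n) * (((n : ℝ) + 2) ^ δ * 4 ^ κ * h * Z) ≤
        (CE * ((CL * h) * (CL * h))) * ((T * T) * T ^ n) *
          (((n : ℝ) + 2) ^ δ * 4 ^ κ * h * Z) := by gcongr
    have h2 : (CE * ((CL * h) * (CL * h))) * ((T * T) * T ^ n) *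
          (((n : ℝ) + 2) ^ δ * 4 ^ κ * h * Z) =
        (2 * CA + 1) ^ (n + 2) * (CE * (CL * CL) * ((n + 2) ^ δ * 4 ^ κ)) * h ^ (n + 5) * Z := by
      rw [hT, mul_pow]; ring
    have h3 : 2 * T ^ n * Z ≤ (2 * CA + 1) ^ (n + 2) * 2 * h ^ (n + 5) * Z := by
      rw [hT, mul_pow]
      have h4 : (2 * CA + 1) ^ n ≤ (2 * CA + 1) ^ (n + 2) :=
        pow_le_pow_right₀ hCA1 (by omega)
      have h5 : h ^ n ≤ h ^ (n + 5) := pow_le_pow_right₀ hHδ1 (by omega)
      calc 2 * ((2 * CA + 1) ^ n * h ^ n) * Z ≤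
          2 * ((2 * CA + 1) ^ (n + 2) * h ^ (n + 5)) * Z := by gcongr
        _ = _ := by ring
    calc _ ≤ (2 * CA + 1) ^ (n + 2) * (CE * (CL * CL) * ((n + 2) ^ δ * 4 ^ κ)) * h ^ (n + 5) * Z +
          (2 * CA + 1) ^ (n + 2) * 2 * h ^ (n + 5) * Z := by linarith
      _ = _ := by ring
  have hhε : h ^ (n + 5) = (H : ℝ) ^ ε := by
    rw [hh, ← Real.rpow_natCast, ← Real.rpow_mul hH0.le, hδ]
    congr 1
    push_cast
    have : ((n : ℝ) + 5) ≠ 0 := by positivity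
    field_simp
  rw [hhε] at hBle
  calc ((NJ n H Z κ D K).ncard : ℝ) ≤ n * n * B := hcard
    _ ≤ (n * n + 1) * B := by nlinarith
    _ ≤ (n * n + 1) * ((2 * CA + 1) ^ (n + 2) *
      (CE * (CL * CL) * ((n + 2) ^ δ * 4 ^ κ) + 2) * (H : ℝ) ^ ε * Z) := by gcongr
    _ = _ := by ring

end Pool.Agent.H33.AE
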