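import Pool.Agent.H38.AE.TargetsN

/-! Module N5: the count of the exceptional `n`-tuples for given parameters. -/

set_option autoImplicit false

namespace Pool.Agent.H33.AE

open Pool.Agent.H38.AE

theorem adm_finite (n H : ℕ) : (Adm n H).Finite := by
  apply Set.Finite.subset (s := Set.Icc (fun _ : Fin n => -(H : ℤ)) (fun _ => (H : ℤ)))
  · exact Set.finite_Icc _ _
  · rintro x ⟨-, -, -, h⟩
    exact ⟨fun i => (abs_le.mp (h i)).1, fun i => (abs_le.mp (h i)).2⟩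

theorem rad_mul' {a b : ℕ} (h : a.Coprime b) : rad (a * b) = rad a * rad b := by
  unfold rad
  rw [h.primeFactors_mul, Finset.prod_union h.disjoint_primeFactors]

theorem rad_prod {n : ℕ} (x : Fin n → ℤ) (hx : ∀ i j, i ≠ j → IsCoprime (x i) (x j))
    (s : Finset (Fin n)) : rad (∏ i ∈ s, x i).natAbs = ∏ i ∈ s, rad (x i).natAbs := by
  classical
  induction s using Finset.induction_on with
  | empty => simp [rad]
  | insert a s ha ih =>
    rw [Finset.prod_insert ha, Finset.prod_insert ha, Int.natAbs_mul, rad_mul', ih]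
    have h1 : IsCoprime (x a) (∏ i ∈ s, x i) :=
      IsCoprime.prod_right fun i hi => hx a i (fun h => ha (h ▸ hi))
    rwa [Int.isCoprime_iff_nat_coprime] at h1

theorem log_bd' (e : ℝ) (he : 0 < e) (N : ℕ) (hN : 1 ≤ N) :
    ((Nat.log 2 (2 * N) + 1 : ℕ) : ℝ) ≤ (1 / (e * Real.log 2) + 1) * ((2 * N : ℕ) : ℝ) ^ e := by
  have h1 : (Nat.log 2 (2 * N) : ℝ) ≤ Real.logb ((2 : ℕ) : ℝ) ((2 * N : ℕ) : ℝ) :=
    Real.natLog_le_logb _ _
  have hl2 : 0 < Real.log 2 := Real.log_pos (by norm_num)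
  have h2N : (1 : ℝ) ≤ ((2 * N : ℕ) : ℝ) := by
    have : 1 ≤ 2 * N := by omega
    exact_mod_cast this
  have h2 : Real.log ((2 * N : ℕ) : ℝ) ≤ ((2 * N : ℕ) : ℝ) ^ e / e :=
    Real.log_le_rpow_div (by linarith) he
  have h3 : (1 : ℝ) ≤ ((2 * N : ℕ) : ℝ) ^ e := Real.one_le_rpow h2N he.le
  have h4 : Real.logb ((2 : ℕ) : ℝ) ((2 * N : ℕ) : ℝ) ≤
      (1 / (e * Real.log 2)) * ((2 * N : ℕ) : ℝ) ^ e := by
    unfold Real.logb
    rw [Nat.cast_ofNat, div_le_iff₀ hl2]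
    calc Real.log ((2 * N : ℕ) : ℝ) ≤ ((2 * N : ℕ) : ℝ) ^ e / e := h2
      _ = 1 / (e * Real.log 2) * ((2 * N : ℕ) : ℝ) ^ e * Real.log 2 := by
        field_simp
  push_cast at *
  linarith

/-- N5 -/
theorem pf_N5 : T_N1 → T_N2 → T_N3 → T_N4 → T_N5 := by
  intro hN1 hN2 hN3 hN4 n D M m κ hn hM hκ0 hκ1 hm0 hc1 hc2 hc3 hHD ε hε
  have hM0 : 0 < M := by linarith
  have hlam0 : 0 < 1 / M := by positivity
  have hlam1 : 1 / M ≤ 1 := by rw [div_le_one hM0]; exact hM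
  have hm1 : m ≤ 1 := by
    have h4 : (4 : ℝ) ≤ n := by exact_mod_cast hn
    have h5 : 0 < 1 / (1 - κ) := one_div_pos.2 (by linarith)
    nlinarith
  obtain ⟨C0, K, hC0, hKK⟩ := hN4 n D (1 / M) m κ hn hlam0 hlam1 hκ0 hκ1 hm0 hc1 hc2 hc3
  obtain ⟨C1, hC1, h1⟩ := hN1 n (ε / 2) (by linarith)
  obtain ⟨C2, hC2, h2⟩ := hN2 n (ε / 2) (by linarith)
  obtain ⟨C3, hC3, h3⟩ := hN3 n D K κ (ε / 2) hκ0.le (by linarith) hHD
  obtain ⟨θ, hθ⟩ : ∃ θ : ℝ, θ = 1 - m := ⟨_, rfl⟩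
  have hθ0 : 0 ≤ θ := by rw [hθ]; linarith
  rw [← hθ] at hKK
  rw [← hθ]
  obtain ⟨G, hGdef⟩ : ∃ G : ℕ → Set (Fin n → ℤ), ∀ H x, x ∈ G H ↔ (x ∈ Adm n H ∧
    (∃ i, (H : ℤ) < 2 * |x i|) ∧ ∏ i, RR (x i) ≤ (H : ℝ) ^ (1 / M)) :=
    ⟨fun H => {x | x ∈ Adm n H ∧ (∃ i, (H : ℤ) < 2 * |x i|) ∧
      ∏ i, RR (x i) ≤ (H : ℝ) ^ (1 / M)}, fun H x => Iff.rfl⟩
  have hG : ∀ H : ℕ, 1 ≤ H → ((G H).ncard : ℝ) ≤
      ((C1 + C2 + C3) * C0) * (H : ℝ) ^ (ε / 2 + θ * (1 / M)) := by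
    intro H hH
    have hH0 : (0 : ℝ) < H := by exact_mod_cast hH
    have hZ : 0 ≤ C0 * (H : ℝ) ^ (θ * (1 / M)) := by positivity
    have ha := h1 H _ hH hZ
    have hb := h2 H _ hH hZ
    have hc := h3 H _ hH hZ
    obtain ⟨Z, hZdef⟩ : ∃ Z : ℝ, Z = C0 * (H : ℝ) ^ (θ * (1 / M)) := ⟨_, rfl⟩
    rw [← hZdef] at ha hb hc
    have hsub : G H ⊆ NT n H Z ∪ NE n H Z ∪ NJ n H Z κ D K := by
      intro x hx
      rw [hGdef] at hx
      rw [hZdef]
      exact hKK H x hH hx.1 hx.2.1 hx.2.2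
    have hfin : (NT n H Z ∪ NE n H Z ∪ NJ n H Z κ D K).Finite := by
      apply (adm_finite n H).subset
      rintro t ((h | h) | h) <;> exact h.1
    have hu : (G H).ncard ≤ (NT n H Z).ncard + (NE n H Z).ncard + (NJ n H Z κ D K).ncard :=
      (Set.ncard_le_ncard hsub hfin).trans ((Set.ncard_union_le _ _).trans
        (Nat.add_le_add_right (Set.ncard_union_le _ _) _))
    have hu' : ((G H).ncard : ℝ) ≤
        (NT n H Z).ncard + (NE n H Z).ncard + (NJ n H Z κ D K).ncard := by exact_mod_cast hu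
    rw [Real.rpow_add hH0]
    calc ((G H).ncard : ℝ) ≤ C1 * (H : ℝ) ^ (ε / 2) * Z + C2 * (H : ℝ) ^ (ε / 2) * Z +
          C3 * (H : ℝ) ^ (ε / 2) * Z := by linarith
      _ = ((C1 + C2 + C3) * C0) * ((H : ℝ) ^ (ε / 2) * (H : ℝ) ^ (θ * (1 / M))) := by
        rw [hZdef]; ring
  have hl2 : 0 < Real.log 2 := Real.log_pos (by norm_num)
  refine ⟨(1 / (ε / 2 * Real.log 2) + 1) * ((C1 + C2 + C3) * C0) *
    (2 : ℝ) ^ (θ / M + ε), by positivity, ?_⟩
  intro N hN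
  have : NeZero n := ⟨by omega⟩
  -- covering by the dyadic levels
  have hsub : ExcN n M N ⊆ ⋃ i ∈ Finset.range (Nat.log 2 (2 * N) + 1), G (2 ^ i) := by
    rintro x ⟨⟨hx0, hxc, hxs, hxN⟩, i0, hi0⟩
    have hrad : ((rad (∏ i, x i).natAbs : ℕ) : ℝ) = ∏ i, RR (x i) := by
      rw [rad_prod x hxc]
      unfold RR
      push_cast
      rfl
    obtain ⟨k, -, hk⟩ := Finset.exists_max_image (Finset.univ : Finset (Fin n))
      (fun i => (x i).natAbs) ⟨0, Finset.mem_univ _⟩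
    obtain ⟨m', hm'⟩ : ∃ m' : ℕ, m' = (x k).natAbs := ⟨_, rfl⟩
    have hall : ∀ i, (x i).natAbs ≤ m' := fun i => hm' ▸ hk i (Finset.mem_univ _)
    have hm1' : 1 ≤ m' := by
      rw [hm']; exact Int.natAbs_pos.mpr (hx0 k)
    have hmN : m' ≤ N := by
      have := hxN k
      rw [Int.abs_eq_natAbs] at this
      omega
    obtain ⟨i, hi⟩ : ∃ i : ℕ, i = Nat.clog 2 m' := ⟨_, rfl⟩
    have hle : m' ≤ 2 ^ i := by rw [hi]; exact Nat.le_pow_clog (by norm_num) m'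
    have hlt : 2 ^ i < 2 * m' := by
      rcases Nat.lt_or_ge 1 m' with h | h
      · have h5 := Nat.pow_pred_clog_lt_self (b := 2) (by norm_num) h
        have h6 : 0 < Nat.clog 2 m' := Nat.clog_pos (by norm_num) (by omega)
        have h7 : 2 ^ i = 2 * 2 ^ (Nat.clog 2 m').pred := by
          have h8 : i = (Nat.clog 2 m').pred + 1 := by
            rw [Nat.pred_eq_sub_one]
            omega
          rw [← pow_succ', ← h8]
        omega
      · have : m' = 1 := by omega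
        rw [hi, this]
        simp
    have hi2 : i < Nat.log 2 (2 * N) + 1 := by
      have : i ≤ Nat.log 2 (2 * N) := Nat.le_log_of_pow_le (by norm_num) (by omega)
      omega
    simp only [Set.mem_iUnion, Finset.mem_range]
    refine ⟨i, hi2, ?_⟩
    rw [hGdef]
    have hleZ : (m' : ℤ) ≤ ((2 ^ i : ℕ) : ℤ) := by exact_mod_cast hle
    have hltZ : ((2 ^ i : ℕ) : ℤ) < 2 * (m' : ℤ) := by exact_mod_cast hlt
    refine ⟨⟨hx0, hxc, hxs, fun j => ?_⟩, ⟨k, ?_⟩, ?_⟩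
    · have := hall j
      rw [Int.abs_eq_natAbs]; omega
    · rw [Int.abs_eq_natAbs, ← hm']; exact hltZ
    · rw [← hrad]
      have hmR : (rad (∏ i, x i).natAbs : ℝ) ^ M < (m' : ℝ) := by
        refine hi0.trans_le ?_
        rw [← Int.cast_abs]
        have : |x i0| ≤ (m' : ℤ) := by
          have := hall i0
          rw [Int.abs_eq_natAbs]; omega
        exact_mod_cast this
      have hr0 : (0 : ℝ) ≤ (rad (∏ i, x i).natAbs : ℝ) := Nat.cast_nonneg _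
      have hR : (rad (∏ i, x i).natAbs : ℝ) ^ M ≤ ((2 ^ i : ℕ) : ℝ) := by
        have : (m' : ℝ) ≤ ((2 ^ i : ℕ) : ℝ) := by exact_mod_cast hle
        linarith
      calc (rad (∏ i, x i).natAbs : ℝ)
          = ((rad (∏ i, x i).natAbs : ℝ) ^ M) ^ (1 / M) := by
            rw [← Real.rpow_mul hr0, mul_one_div_cancel hM0.ne', Real.rpow_one]
        _ ≤ ((2 ^ i : ℕ) : ℝ) ^ (1 / M) :=
            Real.rpow_le_rpow (Real.rpow_nonneg hr0 _) hR hlam0.le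
  have hfinG : ∀ H, (G H).Finite := by
    intro H
    apply (adm_finite n H).subset
    intro t ht
    rw [hGdef] at ht
    exact ht.1
  have hfinU : (⋃ i ∈ Finset.range (Nat.log 2 (2 * N) + 1), G (2 ^ i)).Finite :=
    Set.Finite.biUnion (Finset.finite_toSet _) (fun i _ => hfinG _)
  have hcard : (ExcN n M N).ncard ≤
      ∑ i ∈ Finset.range (Nat.log 2 (2 * N) + 1), (G (2 ^ i)).ncard :=
    (Set.ncard_le_ncard hsub hfinU).trans (Finset.set_ncard_biUnion_le _ _)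
  have hcardR : ((ExcN n M N).ncard : ℝ) ≤
      ∑ i ∈ Finset.range (Nat.log 2 (2 * N) + 1), ((G (2 ^ i)).ncard : ℝ) := by
    exact_mod_cast hcard
  have hN0 : (0 : ℝ) < N := by exact_mod_cast hN
  have h2N0 : (0 : ℝ) < ((2 * N : ℕ) : ℝ) := by push_cast; positivity
  have hterm : ∀ i ∈ Finset.range (Nat.log 2 (2 * N) + 1), ((G (2 ^ i)).ncard : ℝ) ≤
      ((C1 + C2 + C3) * C0) * ((2 * N : ℕ) : ℝ) ^ (ε / 2 + θ * (1 / M)) := by
    intro i hi
    have hi' : i ≤ Nat.log 2 (2 * N) := by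
      have := Finset.mem_range.mp hi
      omega
    have hpow : 2 ^ i ≤ 2 * N := Nat.pow_le_of_le_log (by omega) hi'
    refine (hG (2 ^ i) Nat.one_le_two_pow).trans ?_
    apply mul_le_mul_of_nonneg_left _ (by positivity)
    apply Real.rpow_le_rpow (Nat.cast_nonneg _) (by exact_mod_cast hpow) (by positivity)
  have hsumle := Finset.sum_le_sum hterm
  rw [Finset.sum_const, Finset.card_range, nsmul_eq_mul] at hsumle
  have hlog := log_bd' (ε / 2) (by linarith) N hN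
  have hexp : ((2 * N : ℕ) : ℝ) ^ (ε / 2) * ((2 * N : ℕ) : ℝ) ^ (ε / 2 + θ * (1 / M)) =
      (2 : ℝ) ^ (θ / M + ε) * (N : ℝ) ^ (θ / M + ε) := by
    rw [← Real.rpow_add h2N0, ← Real.mul_rpow (by norm_num) hN0.le]
    congr 1
    · push_cast; ring
    · field_simp
      ring
  calc ((ExcN n M N).ncard : ℝ)
      ≤ ((Nat.log 2 (2 * N) + 1 : ℕ) : ℝ) * (((C1 + C2 + C3) * C0) *
          ((2 * N : ℕ) : ℝ) ^ (ε / 2 + θ * (1 / M))) := hcardR.trans hsumle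
    _ ≤ ((1 / (ε / 2 * Real.log 2) + 1) * ((2 * N : ℕ) : ℝ) ^ (ε / 2)) *
          (((C1 + C2 + C3) * C0) * ((2 * N : ℕ) : ℝ) ^ (ε / 2 + θ * (1 / M))) :=
        mul_le_mul_of_nonneg_right hlog (by positivity)
    _ = (1 / (ε / 2 * Real.log 2) + 1) * ((C1 + C2 + C3) * C0) *
          (((2 * N : ℕ) : ℝ) ^ (ε / 2) * ((2 * N : ℕ) : ℝ) ^ (ε / 2 + θ * (1 / M))) := by ring
    _ = (1 / (ε / 2 * Real.log 2) + 1) * ((C1 + C2 + C3) * C0) *
          (2 : ℝ) ^ (θ / M + ε) * (N : ℝ) ^ (θ / M + ε) := by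
        rw [hexp]; ring

end Pool.Agent.H33.AE
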