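import Pool.Agent.H38.AE.TargetsN

/-! Module N7: the case `n = 3` in terms of tuples. -/

set_option autoImplicit false

namespace Pool.Agent.H33.AE

open Pool.Agent.H38.AE

theorem exc_finite (M : ℝ) (N : ℕ) : (Exc M N).Finite := by
  apply Set.Finite.subset (s := Set.Icc (-(N : ℤ)) N ×ˢ (Set.Icc (-(N : ℤ)) N ×ˢ
    Set.Icc (-(N : ℤ)) N))
  · exact (Set.finite_Icc _ _).prod ((Set.finite_Icc _ _).prod (Set.finite_Icc _ _))
  · rintro ⟨x, y, z⟩ ⟨⟨-, -, -, -, -, -, -, h1, h2, h3⟩, -⟩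
    simp only [Set.mem_prod, Set.mem_Icc]
    exact ⟨abs_le.mp h1, abs_le.mp h2, abs_le.mp h3⟩

/-- N7 -/
theorem pf_N7 : T_MF → T_N7 := by
  intro hMF M ε hM hε
  obtain ⟨C, hC, h⟩ := hMF M ε hM hε
  refine ⟨C, hC, fun N hN => le_trans ?_ (h N hN)⟩
  have key : (ExcN 3 M N).ncard ≤ (Exc M N).ncard := by
    apply Set.ncard_le_ncard_of_injOn (fun x : Fin 3 → ℤ => (x 0, x 1, x 2)) _ _ (exc_finite M N)
    · rintro x ⟨⟨h0, hc, hs, hb⟩, i, hi⟩
      rw [Fin.sum_univ_three] at hs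
      rw [Fin.prod_univ_three] at hi
      refine ⟨⟨h0 0, h0 1, h0 2, hc 0 1 (by decide), hc 0 2 (by decide), hc 1 2 (by decide), hs,
        hb 0, hb 1, hb 2⟩, ?_⟩
      simp only
      fin_cases i
      · exact Or.inl hi
      · exact Or.inr (Or.inl hi)
      · exact Or.inr (Or.inr hi)
    · intro x _ y _ hxy
      simp only [Prod.mk.injEq] at hxy
      funext i
      fin_cases i
      · exact hxy.1
      · exact hxy.2.1
      · exact hxy.2.2
  exact_mod_cast key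

end Pool.Agent.H33.AE
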